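import Pool.Agent.W2helper57.FAE.Defs

/-!
# A small circuit which accepts isolated cliques by means of the absent edges at one vertex
-/

set_option autoImplicit false

namespace Pool.Agent.W2helper57.FAE

open Finset Pool.Agent.W2lead.PM

section

variable {I : Type}

/-- `c` further gates suffice to compute all functions in `F`. -/
def Reach (c : ℕ) (F : Set ((I → Bool) → (I → Bool) → Bool)) : Prop :=
  ∀ s G, Circuit s G → ∃ s' ≤ s + c, ∃ G', Circuit s' G' ∧ G ⊆ G' ∧ F ⊆ G'

/-- constants, inputs, and negated inputs -/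
def Base (I : Type) : Set ((I → Bool) → (I → Bool) → Bool) :=
  {f | (∃ b, f = fun _ _ => b) ∨ (∃ i, f = fun _ x => x i) ∨ ∃ i, f = fun S x => S i && !(x i)}

lemma base_sub {s : ℕ} {G : Set ((I → Bool) → (I → Bool) → Bool)} (h : Circuit s G) :
    Base I ⊆ G := by
  induction h with
  | inputs => exact subset_rfl
  | and _ _ _ ih => exact ih.trans (Set.subset_insert _ _)
  | or _ _ _ ih => exact ih.trans (Set.subset_insert _ _)

lemma reach_base : Reach 0 (Base I) := fun s G h => ⟨s, le_rfl, G, h, subset_rfl, base_sub h⟩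

lemma Reach.mono {c c' : ℕ} {F F' : Set ((I → Bool) → (I → Bool) → Bool)} (h : Reach c F)
    (hc : c ≤ c') (hF : F' ⊆ F) : Reach c' F' := by
  intro s G hG
  obtain ⟨s', h1, G', h2, h3, h4⟩ := h s G hG
  exact ⟨s', by omega, G', h2, h3, hF.trans h4⟩

lemma Reach.union {c c' : ℕ} {F F' : Set ((I → Bool) → (I → Bool) → Bool)} (h : Reach c F)
    (h' : Reach c' F') : Reach (c + c') (F ∪ F') := by
  intro s G hG
  obtain ⟨s', h1, G', h2, h3, h4⟩ := h s G hG
  obtain ⟨s'', h5, G'', h6, h7, h8⟩ := h' s' G' h2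
  exact ⟨s'', by omega, G'', h6, h3.trans h7, Set.union_subset (h4.trans h7) h8⟩

lemma Reach.and {c : ℕ} {F : Set ((I → Bool) → (I → Bool) → Bool)} (h : Reach c F)
    {f g : (I → Bool) → (I → Bool) → Bool} (hf : f ∈ F) (hg : g ∈ F) :
    Reach (c + 1) (insert (fun S x => f S x && g S x) F) := by
  intro s G hG
  obtain ⟨s', h1, G', h2, h3, h4⟩ := h s G hG
  exact ⟨s' + 1, by omega, _, Circuit.and h2 (h4 hf) (h4 hg), h3.trans (Set.subset_insert _ _),
    Set.insert_subset_insert h4⟩

lemma Reach.or {c : ℕ} {F : Set ((I → Bool) → (I → Bool) → Bool)} (h : Reach c F)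
    {f g : (I → Bool) → (I → Bool) → Bool} (hf : f ∈ F) (hg : g ∈ F) :
    Reach (c + 1) (insert (fun S x => f S x || g S x) F) := by
  intro s G hG
  obtain ⟨s', h1, G', h2, h3, h4⟩ := h s G hG
  exact ⟨s' + 1, by omega, _, Circuit.or h2 (h4 hf) (h4 hg), h3.trans (Set.subset_insert _ _),
    Set.insert_subset_insert h4⟩

/-- one function for each member of a finite set -/
lemma reach_family {ι : Type} (J : Finset ι) {c : ℕ}
    {g : ι → (I → Bool) → (I → Bool) → Bool} (h : ∀ j ∈ J, Reach c {g j}) :
    Reach (J.card * c) {f | f ∈ Base I ∨ ∃ j ∈ J, f = g j} := by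
  classical
  induction J using Finset.induction_on with
  | empty =>
    refine reach_base.mono (Nat.zero_le _) ?_
    rintro f (hf | ⟨j, hj, -⟩)
    · exact hf
    · exact absurd hj (notMem_empty _)
  | insert a J ha ih =>
    have h1 := (ih (fun j hj => h j (mem_insert_of_mem hj))).union (h a (mem_insert_self _ _))
    refine h1.mono (le_of_eq ?_) ?_
    · rw [card_insert_of_notMem ha]
      ring
    · rintro f (hf | ⟨j, hj, rfl⟩)
      · exact Or.inl (Or.inl hf)
      · rw [mem_insert] at hj
        rcases hj with rfl | hj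
        · exact Or.inr rfl
        · exact Or.inl (Or.inr ⟨j, hj, rfl⟩)

open Classical in
/-- a conjunction -/
lemma reach_all {ι : Type} (J : Finset ι) {c : ℕ}
    {g : ι → (I → Bool) → (I → Bool) → Bool} (h : ∀ j ∈ J, Reach c {g j}) :
    Reach (J.card * (c + 1)) {fun S x => decide (∀ j ∈ J, g j S x = true)} := by
  induction J using Finset.induction_on with
  | empty =>
    refine reach_base.mono (Nat.zero_le _) ?_
    rw [Set.singleton_subset_iff]
    exact Or.inl ⟨true, by funext S x; simp⟩
  | insert a J ha ih =>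
    have h1 := (ih (fun j hj => h j (mem_insert_of_mem hj))).union (h a (mem_insert_self _ _))
    have h2 := h1.and (f := fun S x => decide (∀ j ∈ J, g j S x = true)) (g := g a)
      (Or.inl rfl) (Or.inr rfl)
    refine h2.mono (le_of_eq ?_) ?_
    · rw [card_insert_of_notMem ha]
      ring
    · rw [Set.singleton_subset_iff]
      left
      funext S x
      rw [Bool.eq_iff_iff]
      simp only [decide_eq_true_eq, Bool.and_eq_true, mem_insert, forall_eq_or_imp]
      tauto

open Classical in
/-- a disjunction -/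
lemma reach_any {ι : Type} (J : Finset ι) {c : ℕ}
    {g : ι → (I → Bool) → (I → Bool) → Bool} (h : ∀ j ∈ J, Reach c {g j}) :
    Reach (J.card * (c + 1)) {fun S x => decide (∃ j ∈ J, g j S x = true)} := by
  induction J using Finset.induction_on with
  | empty =>
    refine reach_base.mono (Nat.zero_le _) ?_
    rw [Set.singleton_subset_iff]
    exact Or.inl ⟨false, by funext S x; simp⟩
  | insert a J ha ih =>
    have h1 := (ih (fun j hj => h j (mem_insert_of_mem hj))).union (h a (mem_insert_self _ _))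
    have h2 := h1.or (f := fun S x => decide (∃ j ∈ J, g j S x = true)) (g := g a)
      (Or.inl rfl) (Or.inr rfl)
    refine h2.mono (le_of_eq ?_) ?_
    · rw [card_insert_of_notMem ha]
      ring
    · rw [Set.singleton_subset_iff]
      left
      funext S x
      rw [Bool.eq_iff_iff]
      simp only [decide_eq_true_eq, Bool.or_eq_true, mem_insert, exists_eq_or_imp]
      exact or_comm

lemma reach_all' {ι : Type} (J : Finset ι) {c : ℕ}
    {g : ι → (I → Bool) → (I → Bool) → Bool} (h : ∀ j ∈ J, Reach c {g j})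
    (t : (I → Bool) → (I → Bool) → Bool) (ht : ∀ S x, t S x = true ↔ ∀ j ∈ J, g j S x = true) :
    Reach (J.card * (c + 1)) {t} := by
  classical
  refine (reach_all J h).mono le_rfl (le_of_eq ?_)
  rw [Set.singleton_eq_singleton_iff]
  funext S x
  rw [Bool.eq_iff_iff, ht, decide_eq_true_iff]

lemma reach_any' {ι : Type} (J : Finset ι) {c : ℕ}
    {g : ι → (I → Bool) → (I → Bool) → Bool} (h : ∀ j ∈ J, Reach c {g j})
    (t : (I → Bool) → (I → Bool) → Bool) (ht : ∀ S x, t S x = true ↔ ∃ j ∈ J, g j S x = true) :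
    Reach (J.card * (c + 1)) {t} := by
  classical
  refine (reach_any J h).mono le_rfl (le_of_eq ?_)
  rw [Set.singleton_eq_singleton_iff]
  funext S x
  rw [Bool.eq_iff_iff, ht, decide_eq_true_iff]

/-- at least `j` of the first `i` bits are true -/
def thr (g : ℕ → (I → Bool) → (I → Bool) → Bool) (i j : ℕ) : (I → Bool) → (I → Bool) → Bool :=
  fun S x => decide (j ≤ ((range i).filter (fun l => g l S x = true)).card)

lemma thr_zero (g : ℕ → (I → Bool) → (I → Bool) → Bool) (i : ℕ) :
    thr g i 0 = fun _ _ => true := by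
  funext S x
  simp [thr]

lemma thr_succ (g : ℕ → (I → Bool) → (I → Bool) → Bool) (i j : ℕ) :
    thr g (i + 1) (j + 1) = fun S x => thr g i (j + 1) S x || (g i S x && thr g i j S x) := by
  funext S x
  unfold thr
  rw [Bool.eq_iff_iff]
  simp only [Bool.or_eq_true, Bool.and_eq_true, decide_eq_true_eq]
  rw [range_add_one, filter_insert]
  split_ifs with h
  · rw [card_insert_of_notMem (by simp)]
    simp only [h, true_and]
    omega
  · simp [h]

lemma reach_thr (g : ℕ → (I → Bool) → (I → Bool) → Bool) (hg : ∀ l, g l ∈ Base I) (J i : ℕ) :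
    Reach (2 * J * i) {f | f ∈ Base I ∨ ∃ j ≤ J, f = thr g i j} := by
  induction i with
  | zero =>
    refine reach_base.mono (Nat.zero_le _) ?_
    rintro f (hf | ⟨j, hj, rfl⟩)
    · exact hf
    · refine Or.inl ⟨decide (j ≤ 0), ?_⟩
      funext S x
      simp [thr]
  | succ i ih =>
    have key : ∀ j₀ ≤ J, Reach (2 * J * i + 2 * j₀)
        {f | (f ∈ Base I ∨ ∃ j ≤ J, f = thr g i j) ∨ ∃ j ≤ j₀, f = thr g (i + 1) j} := by
      intro j₀
      induction j₀ with
      | zero =>
        intro _
        refine ih.mono (Nat.le_add_right _ _) ?_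
        rintro f (hf | ⟨j, hj, rfl⟩)
        · exact hf
        · obtain rfl : j = 0 := by omega
          left
          exact Or.inl ⟨true, thr_zero g _⟩
      | succ j₀ ih2 =>
        intro hj₀
        have h1 := ih2 (by omega)
        have h2 := h1.and (f := g i) (g := thr g i j₀) (Or.inl (Or.inl (hg i)))
          (Or.inl (Or.inr ⟨j₀, by omega, rfl⟩))
        have h3 := h2.or (f := thr g i (j₀ + 1)) (g := fun S x => g i S x && thr g i j₀ S x)
          (Or.inr (Or.inl (Or.inr ⟨j₀ + 1, hj₀, rfl⟩))) (Or.inl rfl)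
        refine h3.mono (by omega) ?_
        rintro f (hf | ⟨j, hj, rfl⟩)
        · exact Or.inr (Or.inr (Or.inl hf))
        · rcases Nat.lt_or_ge j (j₀ + 1) with h4 | h4
          · exact Or.inr (Or.inr (Or.inr ⟨j, by omega, rfl⟩))
          · obtain rfl : j = j₀ + 1 := by omega
            left
            exact thr_succ g i j₀
    refine (key J le_rfl).mono (by
      rw [Nat.mul_succ]) ?_
    rintro f (hf | ⟨j, hj, rfl⟩)
    · exact Or.inl (Or.inl hf)
    · exact Or.inr ⟨j, hj, rfl⟩

lemma Reach.hasSize {c : ℕ} {f : (I → Bool) → (I → Bool) → Bool} (h : Reach c {f}) :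
    HasSize c f := by
  obtain ⟨s', h1, G', h2, -, h4⟩ := h 0 _ Circuit.inputs
  exact ⟨s', by omega, G', h2, h4 rfl⟩

end

section

variable {n : ℕ}

/-- the neighbour bit of `v` with number `l` -/
def nb (v : Fin n) (l : ℕ) : (Sym2 (Fin n) → Bool) → (Sym2 (Fin n) → Bool) → Bool :=
  if h : l < n ∧ l ≠ v.val then fun _ x => x s(v, ⟨l, h.1⟩) else fun _ _ => false

/-- two neighbours of `v` are adjacent -/
def cl (v : Fin n) (p : Fin n × Fin n) : (Sym2 (Fin n) → Bool) → (Sym2 (Fin n) → Bool) → Bool :=
  if p.1 = p.2 ∨ p.1 = v ∨ p.2 = v then fun _ _ => true else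
    fun S x => ((S s(v, p.1) && !(x s(v, p.1))) || (S s(v, p.2) && !(x s(v, p.2)))) || x s(p.1, p.2)

open Classical in
/-- the neighbours of `v` form a clique -/
noncomputable def ncl (v : Fin n) : (Sym2 (Fin n) → Bool) → (Sym2 (Fin n) → Bool) → Bool :=
  fun S x => decide (∀ p : Fin n × Fin n, cl v p S x = true)

open Classical in
/-- the whole circuit -/
noncomputable def whole (n k : ℕ) : (Sym2 (Fin n) → Bool) → (Sym2 (Fin n) → Bool) → Bool :=
  fun S x => decide (∃ v : Fin n, (thr (nb v) n (k - 1) S x && ncl v S x) = true)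

lemma ncl_iff (v : Fin n) (S x : Sym2 (Fin n) → Bool) :
    ncl v S x = true ↔ ∀ p : Fin n × Fin n, cl v p S x = true := by
  unfold ncl
  exact decide_eq_true_iff

lemma whole_iff (k : ℕ) (S x : Sym2 (Fin n) → Bool) :
    whole n k S x = true ↔ ∃ v : Fin n, thr (nb v) n (k - 1) S x = true ∧ ncl v S x = true := by
  unfold whole
  rw [decide_eq_true_iff]
  simp only [Bool.and_eq_true]

lemma lone_iff {V : Type} (K : Finset V) (e : Sym2 V) :
    lone K e = true ↔ ¬ e.IsDiag ∧ ∀ v ∈ e, v ∈ K := by
  simp only [lone, decide_eq_true_eq]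

lemma acceptsBy_of {V : Type} {f : (Sym2 V → Bool) → (Sym2 V → Bool) → Bool}
    {S : Finset (Sym2 V)} {x : Sym2 V → Bool}
    (h : ∀ σ : Sym2 V → Bool, (∀ e, σ e = true ↔ e ∈ S) → f σ x = true) : AcceptsBy f S x := by
  unfold AcceptsBy
  exact h _ (fun e => by simp only [decide_eq_true_eq])

lemma nb_base (v : Fin n) (l : ℕ) : nb v l ∈ Base (Sym2 (Fin n)) := by
  unfold nb
  split_ifs with h
  · exact Or.inr (Or.inl ⟨_, rfl⟩)
  · exact Or.inl ⟨false, rfl⟩

lemma cl_reach (v : Fin n) (p : Fin n × Fin n) : Reach 2 {cl v p} := by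
  by_cases h : p.1 = p.2 ∨ p.1 = v ∨ p.2 = v
  · refine reach_base.mono (Nat.zero_le _) ?_
    rw [Set.singleton_subset_iff]
    refine Or.inl ⟨true, ?_⟩
    unfold cl
    rw [if_pos h]
  · have h1 := (reach_base (I := Sym2 (Fin n))).or (f := fun S x => S s(v, p.1) && !(x s(v, p.1)))
      (g := fun S x => S s(v, p.2) && !(x s(v, p.2))) (Or.inr (Or.inr ⟨_, rfl⟩))
      (Or.inr (Or.inr ⟨_, rfl⟩))
    have h2 := h1.or (f := fun S x => (S s(v, p.1) && !(x s(v, p.1))) ||
      (S s(v, p.2) && !(x s(v, p.2)))) (g := fun _ x => x s(p.1, p.2)) (Or.inl rfl)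
      (Or.inr (Or.inr (Or.inl ⟨_, rfl⟩)))
    refine h2.mono le_rfl ?_
    rw [Set.singleton_subset_iff]
    left
    unfold cl
    rw [if_neg h]

lemma whole_size (k : ℕ) (hk1 : 1 ≤ k) (hk : k ≤ n) : HasSize (7 * n ^ 3) (whole n k) := by
  classical
  have h1 : ∀ v : Fin n, Reach (2 * (k - 1) * n + n * n * 3 + 1)
      {fun S x => thr (nb v) n (k - 1) S x && ncl v S x} := by
    intro v
    have e1 := reach_thr (nb v) (nb_base v) (k - 1) n
    have e2 := reach_all' (univ : Finset (Fin n × Fin n)) (c := 2) (g := cl v)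
      (fun p _ => cl_reach v p) (ncl v) (fun S x => by
        rw [ncl_iff]
        exact ⟨fun h p _ => h p, fun h p => h p (mem_univ _)⟩)
    rw [card_univ, Fintype.card_prod, Fintype.card_fin] at e2
    have e3 := (e1.union e2).and (f := thr (nb v) n (k - 1)) (g := ncl v)
      (Or.inl (Or.inr ⟨_, le_rfl, rfl⟩)) (Or.inr rfl)
    refine e3.mono le_rfl ?_
    rw [Set.singleton_subset_iff]
    exact Or.inl rfl
  have h2 := reach_any' (univ : Finset (Fin n)) (fun v _ => h1 v) (whole n k) (fun S x => by
    rw [whole_iff]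
    simp only [mem_univ, true_and, Bool.and_eq_true])
  rw [card_univ, Fintype.card_fin] at h2
  refine Reach.hasSize (h2.mono ?_ subset_rfl)
  have hn : 1 ≤ n := hk1.trans hk
  have h3 : 2 * (k - 1) * n ≤ 2 * n * n := Nat.mul_le_mul_right _ (by omega)
  have h4 : 1 ≤ n * n := Nat.mul_pos hn hn
  calc n * (2 * (k - 1) * n + n * n * 3 + 1 + 1) ≤ n * (2 * n * n + n * n * 3 + n * n + n * n) := by
        apply Nat.mul_le_mul_left
        omega
    _ = 7 * n ^ 3 := by ring

lemma whole_sound (k : ℕ) (hk1 : 1 ≤ k) (x : Sym2 (Fin n) → Bool) (h : Accepts (whole n k) x) :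
    ¬ (graph x).CliqueFree k := by
  classical
  unfold Accepts at h
  rw [whole_iff] at h
  obtain ⟨v, h1, h2⟩ := h
  rw [ncl_iff] at h2
  unfold thr at h1
  rw [decide_eq_true_eq] at h1
  obtain ⟨T, hT, hTc⟩ := exists_subset_card_eq h1
  have hT' : ∀ l ∈ T, ∃ h : l < n, (⟨l, h⟩ : Fin n) ≠ v ∧ x s(v, ⟨l, h⟩) = true := by
    intro l hl
    have h3 := (mem_filter.mp (hT hl)).2
    unfold nb at h3
    split_ifs at h3 with h4
    exact ⟨h4.1, fun h5 => h4.2 (by rw [← h5]), h3⟩
  let U : Finset (Fin n) := univ.filter (fun u => u.val ∈ T)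
  have hU : U.card = k - 1 := by
    rw [← hTc]
    refine card_bij (fun u _ => u.val) ?_ ?_ ?_
    · intro u hu
      exact (mem_filter.mp hu).2
    · intro u _ u' _ h3
      exact Fin.ext h3
    · intro l hl
      obtain ⟨h3, -⟩ := hT' l hl
      exact ⟨⟨l, h3⟩, mem_filter.mpr ⟨mem_univ _, hl⟩, rfl⟩
  have hU2 : ∀ u ∈ U, u ≠ v ∧ x s(v, u) = true := by
    intro u hu
    obtain ⟨h3, h4, h5⟩ := hT' _ (mem_filter.mp hu).2
    exact ⟨h4, h5⟩
  have hvU : v ∉ U := fun h3 => (hU2 v h3).1 rfl
  intro hfree
  apply hfree (insert v U)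
  rw [SimpleGraph.isNClique_iff]
  constructor
  · intro a ha b hb hab
    rw [mem_coe, mem_insert] at ha hb
    rw [graph_adj]
    refine ⟨?_, hab⟩
    rcases ha with rfl | ha
    · rcases hb with rfl | hb
      · exact absurd rfl hab
      · exact (hU2 b hb).2
    · rcases hb with rfl | hb
      · rw [Sym2.eq_swap]
        exact (hU2 a ha).2
      · have h3 := h2 (a, b)
        unfold cl at h3
        rw [if_neg (by
          rintro (h4 | h4 | h4)
          · exact hab h4
          · exact (hU2 a ha).1 h4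
          · exact (hU2 b hb).1 h4)] at h3
        simpa [(hU2 a ha).2, (hU2 b hb).2] using h3
  · rw [card_insert_of_notMem hvU, hU]
    omega

open Classical in
lemma whole_complete (k : ℕ) (hk1 : 1 ≤ k) (K : Finset (Fin n)) (hK : k ≤ K.card) :
    ∃ S : Finset (Sym2 (Fin n)), S.card ≤ n - K.card ∧ (∃ v ∈ K, ∀ e ∈ S, v ∈ e) ∧
      AcceptsBy (whole n k) S (lone K) := by
  obtain ⟨v, hv⟩ : K.Nonempty := card_pos.mp (by omega)
  refine ⟨Kᶜ.image (fun u => s(v, u)), ?_, ⟨v, hv, ?_⟩, ?_⟩
  · refine card_image_le.trans ?_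
    rw [card_compl, Fintype.card_fin]
  · intro e he
    rw [mem_image] at he
    obtain ⟨u, -, rfl⟩ := he
    exact Sym2.mem_mk_left v u
  · refine acceptsBy_of (fun σ hσ => ?_)
    rw [whole_iff]
    refine ⟨v, ?_, ?_⟩
    · unfold thr
      rw [decide_eq_true_eq]
      have h1 : ((K.erase v).image (fun u : Fin n => u.val)).card ≤
          ((range n).filter (fun l => nb v l σ (lone K) = true)).card := by
        apply card_le_card
        intro l hl
        rw [mem_image] at hl
        obtain ⟨u, hu, rfl⟩ := hl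
        rw [mem_erase] at hu
        rw [mem_filter, mem_range]
        refine ⟨u.isLt, ?_⟩
        unfold nb
        rw [dif_pos ⟨u.isLt, fun h => hu.1 (Fin.ext h)⟩]
        rw [lone_iff]
        refine ⟨?_, ?_⟩
        · rw [Sym2.mk_isDiag_iff]
          exact fun h => hu.1 h.symm
        · intro w hw
          rw [Sym2.mem_iff] at hw
          rcases hw with rfl | rfl
          · exact hv
          · exact hu.2
      rw [card_image_of_injective _ Fin.val_injective, card_erase_of_mem hv] at h1
      refine le_trans ?_ h1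
      omega
    · rw [ncl_iff]
      rintro ⟨a, b⟩
      unfold cl
      split_ifs with h
      · rfl
      · push Not at h
        obtain ⟨h1, h2, h3⟩ := h
        simp only at h1 h2 h3
        have key : ∀ u, u ≠ v → u ∉ K → (σ s(v, u) && !(lone K s(v, u))) = true := by
          intro u huv hu
          rw [Bool.and_eq_true, Bool.not_eq_true', hσ]
          refine ⟨mem_image_of_mem _ (mem_compl.mpr hu), ?_⟩
          rw [Bool.eq_false_iff]
          intro h4
          rw [lone_iff] at h4
          exact hu (h4.2 u (Sym2.mem_mk_right v u))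
        by_cases ha : a ∈ K
        · by_cases hb : b ∈ K
          · have : lone K s(a, b) = true := by
              rw [lone_iff]
              refine ⟨?_, ?_⟩
              · rw [Sym2.mk_isDiag_iff]
                exact h1
              · intro w hw
                rw [Sym2.mem_iff] at hw
                rcases hw with rfl | rfl
                · exact ha
                · exact hb
            simp only [this, Bool.or_true]
          · have := key b h3 hb
            simp only [this, Bool.or_true, Bool.true_or]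
        · have := key a h2 ha
          simp only [this, Bool.true_or]

end

end Pool.Agent.W2helper57.FAE
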