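import Pool.Agent.W2helper57.FAE.Defs
import Pool.Agent.H559R10.Avg

/-!
# The monotone function of a hidden vertex set
-/

set_option autoImplicit false

namespace Pool.Agent.W2helper57.FAE

open Finset Pool.Agent.W2lead.PM Pool.Agent.H520R2

/-- A usable negated input matters only where the input bit is false. -/
lemma circ_mono {I : Type} {s : ℕ} {G : Set ((I → Bool) → (I → Bool) → Bool)}
    (hG : Circuit s G) : ∀ f ∈ G, ∀ (S S' x : I → Bool),
      (∀ i, x i = false → S i = true → S' i = true) → f S x = true → f S' x = true := by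
  induction hG with
  | inputs =>
    rintro f (⟨b, rfl⟩ | ⟨i, rfl⟩ | ⟨i, rfl⟩) S S' x hS h
    · exact h
    · exact h
    · simp only [Bool.and_eq_true, Bool.not_eq_true'] at h ⊢
      exact ⟨hS i h.2 h.1, h.2⟩
  | and hG hf hg ih =>
    intro f' hf' S S' x hS h
    rcases Set.mem_insert_iff.mp hf' with rfl | hf'
    · simp only [Bool.and_eq_true] at h ⊢
      exact ⟨ih _ hf S S' x hS h.1, ih _ hg S S' x hS h.2⟩
    · exact ih _ hf' S S' x hS h
  | or hG hf hg ih =>
    intro f' hf' S S' x hS h
    rcases Set.mem_insert_iff.mp hf' with rfl | hf'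
    · simp only [Bool.or_eq_true] at h ⊢
      rcases h with h | h
      · exact Or.inl (ih _ hf S S' x hS h)
      · exact Or.inr (ih _ hg S S' x hS h)
    · exact ih _ hf' S S' x hS h

section

variable {V W : Type} (φ : W ↪ V)

open Classical in
/-- the negated inputs outside of the hidden vertex set -/
noncomputable def off : Sym2 V → Bool := fun e => decide (¬ ∃ a b, a ≠ b ∧ e = s(φ a, φ b))

open Classical in
/-- a graph on the hidden vertex set -/
noncomputable def place (G : SimpleGraph W) : Sym2 V → Bool :=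
  fun e => decide (∃ a b, G.Adj a b ∧ e = s(φ a, φ b))

/-- the function of the graphs on the hidden vertex set -/
noncomputable def blockFun (f : (Sym2 V → Bool) → (Sym2 V → Bool) → Bool) :
    SimpleGraph W → Bool := fun G => f (off φ) (place φ G)

lemma place_pair (G : SimpleGraph W) (a b : W) :
    place φ G s(φ a, φ b) = adjFn a b G := by
  unfold place adjFn
  rw [decide_eq_decide]
  constructor
  · rintro ⟨a', b', h, he⟩
    rw [Sym2.eq_iff] at he
    rcases he with ⟨h1, h2⟩ | ⟨h1, h2⟩
    · rw [φ.injective h1, φ.injective h2]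
      exact h
    · rw [φ.injective h1, φ.injective h2]
      exact h.symm
  · intro h
    exact ⟨a, b, h, rfl⟩

lemma place_of_off (G : SimpleGraph W) (e : Sym2 V) (h : off φ e = true) :
    place φ G e = false := by
  classical
  unfold off at h
  unfold place
  rw [decide_eq_true_eq] at h
  rw [decide_eq_false_iff_not]
  rintro ⟨a, b, hab, he⟩
  exact h ⟨a, b, hab.ne, he⟩

lemma off_or (e : Sym2 V) : off φ e = true ∨ (off φ e = false ∧ ∃ a b, a ≠ b ∧ e = s(φ a, φ b)) := by
  classical
  by_cases h : ∃ a b, a ≠ b ∧ e = s(φ a, φ b)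
  · right
    refine ⟨?_, h⟩
    unfold off
    rw [decide_eq_false_iff_not, not_not]
    exact h
  · left
    unfold off
    rw [decide_eq_true_eq]
    exact h

lemma prog {s : ℕ} {G : Set ((Sym2 V → Bool) → (Sym2 V → Bool) → Bool)} (hG : Circuit s G) :
    ∃ L, MProg (GB W) L ∧ L.length = s ∧ ∀ f ∈ G,
      blockFun φ f ∈ GB W ∨ blockFun φ f ∈ L := by
  induction hG with
  | inputs =>
    refine ⟨[], MProg.nil, rfl, ?_⟩
    rintro f (⟨b, rfl⟩ | ⟨e, rfl⟩ | ⟨e, rfl⟩)
    · exact Or.inl (Or.inl ⟨b, rfl⟩)
    · left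
      rcases off_or φ e with h | ⟨-, a, b, -, rfl⟩
      · refine Or.inl ⟨false, ?_⟩
        funext G
        exact place_of_off φ G e h
      · refine Or.inr ⟨a, b, ?_⟩
        funext G
        exact place_pair φ G a b
    · left
      rcases off_or φ e with h | ⟨h, -⟩
      · refine Or.inl ⟨true, ?_⟩
        funext G
        show (off φ e && !(place φ G e)) = true
        rw [h, place_of_off φ G e h]
        rfl
      · refine Or.inl ⟨false, ?_⟩
        funext G
        show (off φ e && !(place φ G e)) = false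
        rw [h]
        rfl
  | @and s G f g hG hf hg ih =>
    obtain ⟨L, h1, h2, h3⟩ := ih
    refine ⟨_, MProg.and h1 (h3 f hf) (h3 g hg), by simp [h2], ?_⟩
    intro f' hf'
    rcases Set.mem_insert_iff.mp hf' with rfl | hf'
    · exact Or.inr List.mem_cons_self
    · rcases h3 f' hf' with h7 | h7
      · exact Or.inl h7
      · exact Or.inr (List.mem_cons_of_mem _ h7)
  | @or s G f g hG hf hg ih =>
    obtain ⟨L, h1, h2, h3⟩ := ih
    refine ⟨_, MProg.or h1 (h3 f hf) (h3 g hg), by simp [h2], ?_⟩
    intro f' hf'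
    rcases Set.mem_insert_iff.mp hf' with rfl | hf'
    · exact Or.inr List.mem_cons_self
    · rcases h3 f' hf' with h7 | h7
      · exact Or.inl h7
      · exact Or.inr (List.mem_cons_of_mem _ h7)

lemma mcomp {s : ℕ} {f : (Sym2 V → Bool) → (Sym2 V → Bool) → Bool} (h : HasSize s f) :
    MComp (GB W) s (blockFun φ f) := by
  obtain ⟨s', hs, G, hG, hf⟩ := h
  obtain ⟨L, h1, h2, h3⟩ := prog φ hG
  exact ⟨L, h1, by omega, h3 f hf⟩

/-- no clique in the negative tests -/
lemma neg_cliqueFree {κ : ℕ} (hκ : 0 < κ) (ω : W → Fin κ) :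
    (graph (place φ (negG ω))).CliqueFree (κ + 1) := by
  classical
  have hc : (graph (place φ (negG ω))).Colorable κ := by
    refine ⟨⟨fun v => if h : ∃ a, φ a = v then ω h.choose else ⟨0, hκ⟩, ?_⟩⟩
    intro u v huv
    have h1 := (graph_adj.mp huv).1
    unfold place at h1
    rw [decide_eq_true_eq] at h1
    obtain ⟨a, b, hab, he⟩ := h1
    have key : ∀ a : W, ∀ h : ∃ a', φ a' = φ a, h.choose = a := fun a h =>
      φ.injective h.choose_spec
    have hu : ∃ a', φ a' = φ a := ⟨a, rfl⟩
    have hv : ∃ a', φ a' = φ b := ⟨b, rfl⟩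
    rw [Sym2.eq_iff] at he
    rcases he with ⟨rfl, rfl⟩ | ⟨rfl, rfl⟩
    · simp only [dif_pos hu, dif_pos hv, key a hu, key b hv]
      exact hab
    · simp only [dif_pos hu, dif_pos hv, key a hu, key b hv]
      exact Ne.symm hab
  exact hc.cliqueFree (Nat.lt_succ_self κ)

end

open Classical in
/-- the vertices of a positive test -/
noncomputable def tset {V : Type} {k q : ℕ} (φ : Fin k × Fin q ↪ V) (π : Fin k → Fin q) :
    Finset V := univ.image (fun i => φ (i, π i))

lemma tset_card {V : Type} {k q : ℕ} (φ : Fin k × Fin q ↪ V) (π : Fin k → Fin q) :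
    (tset φ π).card = k := by
  classical
  unfold tset
  rw [card_image_of_injective _ (fun i j h => ?_), card_univ, Fintype.card_fin]
  exact (Prod.ext_iff.mp (φ.injective h)).1

lemma place_posG {V : Type} {k q : ℕ} (φ : Fin k × Fin q ↪ V) (π : Fin k → Fin q) :
    place φ (posG (fun x : Fin k × Fin q => x) π) = lone (tset φ π) := by
  classical
  funext e
  unfold place lone
  rw [decide_eq_decide]
  constructor
  · rintro ⟨a, b, ⟨hab, ⟨i, rfl⟩, j, rfl⟩, rfl⟩
    refine ⟨?_, ?_⟩
    · rw [Sym2.mk_isDiag_iff]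
      intro h
      exact hab (φ.injective h)
    · intro v hv
      rw [Sym2.mem_iff] at hv
      unfold tset
      rw [mem_image]
      rcases hv with rfl | rfl
      · exact ⟨i, mem_univ _, rfl⟩
      · exact ⟨j, mem_univ _, rfl⟩
  · rintro ⟨h1, h2⟩
    induction e using Sym2.ind with
    | _ u v =>
      have hu := h2 u (Sym2.mem_mk_left u v)
      have hv := h2 v (Sym2.mem_mk_right u v)
      unfold tset at hu hv
      rw [mem_image] at hu hv
      obtain ⟨i, -, rfl⟩ := hu
      obtain ⟨j, -, rfl⟩ := hv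
      rw [Sym2.mk_isDiag_iff] at h1
      refine ⟨(i, π i), (j, π j), ⟨fun h => h1 (by rw [h]), ⟨i, rfl⟩, j, rfl⟩, rfl⟩

open Classical in
/-- If no useful negated input of the certificate lies in the hidden set, then the monotone
function accepts the positive test. -/
lemma block_pos {V : Type} {k q m : ℕ} (φ : Fin k × Fin q ↪ V) (π : Fin k → Fin q)
    {f : (Sym2 V → Bool) → (Sym2 V → Bool) → Bool} (hf : HasSize m f) (S : Finset (Sym2 V))
    (h : AcceptsBy f S (lone (tset φ π)))
    (hS : ∀ e ∈ S, lone (tset φ π) e = false → off φ e = true) :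
    blockFun φ f (posG (fun x : Fin k × Fin q => x) π) = true := by
  obtain ⟨s', -, G, hG, hfG⟩ := hf
  unfold blockFun
  rw [place_posG]
  refine circ_mono hG f hfG _ _ _ (fun e he hes => ?_) h
  exact hS e (of_decide_eq_true hes) he

end Pool.Agent.W2helper57.FAE
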