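import Pool.Agent.W2helper57.FAE.Count
import Pool.Agent.H559R4.Tcl2

/-!
# The inequality between the acceptance probabilities
-/

set_option autoImplicit false

namespace Pool.Agent.W2helper57.FAE

open Finset Pool.Agent.W2lead.PM Pool.Agent.H520R2 Pool.Agent.H559R4 Pool.Agent.H559R10

variable {V : Type} [Fintype V]

open Classical in
lemma tset_mv {s q : ℕ} (φ : Fin s × Fin q ↪ V) (π : Fin s → Fin q) {K : Finset V}
    {τ : Equiv.Perm V} (h : τ ∈ Qs (tset φ π) K) : tset (mv φ τ) π = K := by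
  ext v
  rw [mem_Qs] at h
  rw [h v]
  unfold tset
  rw [mem_image, mem_image]
  constructor
  · rintro ⟨i, -, rfl⟩
    exact ⟨i, mem_univ _, by rw [mv_apply, perm_inv]⟩
  · rintro ⟨i, -, hi⟩
    refine ⟨i, mem_univ _, ?_⟩
    rw [mv_apply, hi]
    exact τ.apply_symm_apply v

open Classical in
/-- One circuit: the number of the cliques accepted by few absent edges. -/
lemma one_circuit {s q m : ℕ} (φ : Fin s × Fin q ↪ V) (π : Fin s → Fin q)
    {f : (Sym2 V → Bool) → (Sym2 V → Bool) → Bool} (hf : HasSize m f) (a b : ℝ)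
    (hV : 0 < Fintype.card V) (ha : 0 ≤ a) (hb : 0 ≤ b) :
    ((univ.filter (fun K : Finset V => K.card = s ∧ FewAbsent a b f K)).card : ℝ) *
        (Fintype.card V).factorial ≤
      (((univ.filter (fun τ : Equiv.Perm V =>
        blockFun (mv φ τ) f (posG (fun x : Fin s × Fin q => x) π) = true)).card : ℝ) +
      (a * ((s * q : ℕ) / Fintype.card V) + b * ((s * q : ℕ) / Fintype.card V) ^ 2) *
        (Fintype.card V).factorial) * (Fintype.card V).choose s := by
  set K0 := tset φ π with hK0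
  have hK0c : K0.card = s := tset_card φ π
  have hKW : K0 ⊆ univ.map φ := by
    intro v hv
    rw [hK0] at hv
    unfold tset at hv
    rw [mem_image] at hv
    obtain ⟨i, -, rfl⟩ := hv
    exact mem_map_of_mem _ (mem_univ _)
  set h : ℝ := a * ((s * q : ℕ) / Fintype.card V) + b * ((s * q : ℕ) / Fintype.card V) ^ 2 with hh
  have hh0 : 0 ≤ h := by positivity
  set A := univ.filter (fun K : Finset V => K.card = s ∧ FewAbsent a b f K) with hA
  set P : Equiv.Perm V → Prop := fun τ =>
    blockFun (mv φ τ) f (posG (fun x : Fin s × Fin q => x) π) = true with hP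
  have hcW : (Fintype.card (Fin s × Fin q) : ℝ) = ((s * q : ℕ) : ℝ) := by
    rw [Fintype.card_prod, Fintype.card_fin, Fintype.card_fin]
  have h1 : ∀ K ∈ A, ((Qs K0 K).card : ℝ) ≤ (((Qs K0 K).filter P).card : ℝ) +
      h * (Qs K0 K).card := by
    intro K hK
    rw [hA, mem_filter] at hK
    obtain ⟨-, hKc, S, hS1, hS2, hS3⟩ := hK
    have h2 := hits φ K0 K (by rw [hKc, hK0c]) hKW S a b hV (by convert hS1) hS2
    rw [hcW] at h2
    have h3 : Qs K0 K ⊆ (Qs K0 K).filter P ∪ (Qs K0 K).filter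
        (fun τ => ∃ e ∈ S, lone K e = false ∧ off (mv φ τ) e = false) := by
      intro τ hτ
      rw [mem_union, mem_filter, mem_filter]
      by_cases hc : ∃ e ∈ S, lone K e = false ∧ off (mv φ τ) e = false
      · exact Or.inr ⟨hτ, hc⟩
      · left
        refine ⟨hτ, ?_⟩
        have h4 := tset_mv φ π hτ
        refine block_pos (mv φ τ) π hf S (by rw [h4]; exact hS3) (fun e he hl => ?_)
        rw [h4] at hl
        push Not at hc
        have h5 := hc e he hl
        exact Bool.eq_true_of_not_eq_false h5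
    have h4 := (card_le_card h3).trans (card_union_le _ _)
    have h5 : ((Qs K0 K).card : ℝ) ≤ (((Qs K0 K).filter P).card : ℝ) + (((Qs K0 K).filter
        (fun τ => ∃ e ∈ S, lone K e = false ∧ off (mv φ τ) e = false)).card : ℝ) := by
      exact_mod_cast h4
    exact h5.trans (add_le_add le_rfl h2)
  have h2 : ∑ K ∈ A, (((Qs K0 K).filter P).card : ℝ) ≤ ((univ.filter P).card : ℝ) := by
    rw [← Nat.cast_sum, ← card_biUnion]
    · apply Nat.cast_le.mpr
      apply card_le_card
      intro τ hτ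
      rw [mem_biUnion] at hτ
      obtain ⟨K, -, hτ⟩ := hτ
      exact mem_filter.mpr ⟨mem_univ _, (mem_filter.mp hτ).2⟩
    · intro K _ K' _ hne
      rw [Function.onFun, disjoint_left]
      intro τ h1 h2
      rw [mem_filter] at h1 h2
      apply hne
      rw [← tset_mv φ π h1.1, ← tset_mv φ π h2.1]
  have h3 : ∑ K ∈ A, ((Qs K0 K).card : ℝ) ≤ (Fintype.card V).factorial := by
    rw [← Qs_total K0, Nat.cast_sum]
    refine sum_le_sum_of_subset_of_nonneg (fun K hK => ?_) (fun _ _ _ => Nat.cast_nonneg _)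
    rw [hA, mem_filter] at hK
    rw [mem_powersetCard_univ, hK.2.1, hK0c]
  have h4 : ∑ K ∈ A, ((Qs K0 K).card : ℝ) ≤ ((univ.filter P).card : ℝ) +
      h * (Fintype.card V).factorial := by
    refine (sum_le_sum h1).trans ?_
    rw [sum_add_distrib, ← mul_sum]
    exact add_le_add h2 (mul_le_mul_of_nonneg_left h3 hh0)
  have h5 : (∑ K ∈ A, ((Qs K0 K).card : ℝ)) * (Fintype.card V).choose s =
      A.card * (Fintype.card V).factorial := by
    rw [sum_mul]
    rw [sum_congr rfl (g := fun _ => ((Fintype.card V).factorial : ℝ)) (fun K hK => ?_)]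
    · rw [sum_const, nsmul_eq_mul]
    · rw [hA, mem_filter] at hK
      have h6 := Qs_card K0 K (by rw [hK.2.1, hK0c])
      rw [hK0c] at h6
      exact_mod_cast h6
  rw [← h5]
  exact mul_le_mul_of_nonneg_right h4 (Nat.cast_nonneg _)

open Classical in
/-- The main inequality. -/
theorem core {κ s b c S : ℕ} (hκ : 2 ≤ κ) (hb : 2 ≤ b) (hc : 1 ≤ c)
    (hq : 8 * c * (64 * ((κ + 1) * b * κ * κ)) ≤ 2 ^ b)
    (hS : 4 * c * (S * apx2 κ b ^ 2) ≤ 2 ^ ((κ + 1) * b)) (hV : 0 < Fintype.card V)
    (hw : s * 2 ^ b ≤ Fintype.card V)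
    (R : Type) [Fintype R] (C : R → (Sym2 V → Bool) → (Sym2 V → Bool) → Bool)
    (hC : ∀ ρ, HasSize S (C ρ)) (p : ℝ)
    (hno : ∀ x, (graph x).CliqueFree (κ + 1) →
      ((univ.filter (fun ρ => Accepts (C ρ) x)).card : ℝ) ≤ p * Fintype.card R)
    (x y : ℝ) (hx : 0 ≤ x) (hy : 0 ≤ y) :
    ((univ.filter (fun z : R × Finset V => z.2.card = s ∧ FewAbsent x y (C z.1) z.2)).card : ℝ) ≤
      (p + 1 / (2 * c) + (x * ((s * 2 ^ b : ℕ) / Fintype.card V) +
        y * ((s * 2 ^ b : ℕ) / Fintype.card V) ^ 2)) *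
      (Fintype.card R * (Fintype.card V).choose s) := by
  have : Nonempty (Fin κ) := ⟨⟨0, by omega⟩⟩
  have : Nonempty (Fin (2 ^ b)) := ⟨⟨0, by positivity⟩⟩
  set q := 2 ^ b with hqdef
  obtain ⟨φ⟩ : Nonempty (Fin s × Fin q ↪ V) := by
    apply Function.Embedding.nonempty_of_card_le
    rw [Fintype.card_prod, Fintype.card_fin, Fintype.card_fin]
    exact hw
  set n := Fintype.card V with hn
  set h : ℝ := x * ((s * q : ℕ) / n) + y * ((s * q : ℕ) / n) ^ 2 with hh
  set Pt : ℝ := (Fintype.card (Fin s → Fin q) : ℝ) with hPt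
  set Ng : ℝ := (Fintype.card (Fin s × Fin q → Fin κ) : ℝ) with hNg
  set r : ℝ := (Fintype.card R : ℝ) with hr
  have hPt0 : 0 < Pt := by rw [hPt]; exact_mod_cast Fintype.card_pos
  have hNg0 : 0 < Ng := by rw [hNg]; exact_mod_cast Fintype.card_pos
  have hc0 : (0 : ℝ) < c := by exact_mod_cast hc
  let Pc : Equiv.Perm V → R → (Fin s → Fin q) → Prop := fun τ ρ π =>
    blockFun (mv φ τ) (C ρ) (posG (fun x : Fin s × Fin q => x) π) = true
  -- the approximation method for each position
  have h1 : ∀ τ : Equiv.Perm V, ∑ ρ, ((univ.filter (fun π => Pc τ ρ π)).card : ℝ) ≤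
      (p + 1 / (2 * c)) * r * Pt := by
    intro τ
    have h2 : ∀ ρ, ((univ.filter (fun π => Pc τ ρ π)).card : ℝ) * Ng * (2 * c) ≤
        ((univ.filter (fun ω : Fin s × Fin q → Fin κ =>
          blockFun (mv φ τ) (C ρ) (negG ω) = true)).card : ℝ) * Pt * (2 * c) + Ng * Pt := by
      intro ρ
      have key := adv_avg_gap (k := s) (κ := κ) (q := q) (B := (κ + 1) * b) (J := κ)
        (r := 64 * ((κ + 1) * b * κ * κ)) (s := S) (c := c) hκ hc
        (Nat.mul_pos (by omega) (by omega)) (by omega) le_rfl Nat.lt_two_pow_self hq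
        (by
          rw [hqdef, ← pow_mul, mul_comm b]
          exact hS)
        (by
          have h4 : 2 ^ ((κ + 1) * b) ≤ 4 ^ ((κ + 1) * b) := Nat.pow_le_pow_left (by norm_num) _
          unfold apx2 at hS
          refine le_trans ?_ (hS.trans h4)
          apply Nat.mul_le_mul_right
          omega)
        (blockFun (mv φ τ) (C ρ)) (mcomp (mv φ τ) (hC ρ))
      rw [hPt, hNg]
      exact_mod_cast key
    have h3 : ∑ ρ, ((univ.filter (fun ω : Fin s × Fin q → Fin κ =>
        blockFun (mv φ τ) (C ρ) (negG ω) = true)).card : ℝ) ≤ Ng * (p * r) := by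
      have e1 : ∑ ρ, ((univ.filter (fun ω : Fin s × Fin q → Fin κ =>
          blockFun (mv φ τ) (C ρ) (negG ω) = true)).card : ℝ) =
          ∑ ω : Fin s × Fin q → Fin κ, ((univ.filter (fun ρ =>
            blockFun (mv φ τ) (C ρ) (negG ω) = true)).card : ℝ) := by
        simp_rw [card_filter, Nat.cast_sum]
        rw [sum_comm]
      rw [e1]
      have e2 : ∀ ω : Fin s × Fin q → Fin κ, ((univ.filter (fun ρ =>
          blockFun (mv φ τ) (C ρ) (negG ω) = true)).card : ℝ) ≤ p * r := by
        intro ω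
        refine le_trans ?_ (hno (place (mv φ τ) (negG ω)) (neg_cliqueFree _ (by omega) ω))
        apply Nat.cast_le.mpr
        apply card_le_card
        intro ρ hρ
        rw [mem_filter] at hρ ⊢
        refine ⟨mem_univ _, ?_⟩
        obtain ⟨s', -, G, hG, hfG⟩ := hC ρ
        exact circ_mono hG _ hfG _ _ _ (fun _ _ _ => rfl) hρ.2
      refine (sum_le_sum (fun ω _ => e2 ω)).trans (le_of_eq ?_)
      rw [sum_const, nsmul_eq_mul, card_univ]
    have h4 : (∑ ρ, ((univ.filter (fun π => Pc τ ρ π)).card : ℝ)) * Ng * (2 * c) ≤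
        (Ng * (p * r)) * Pt * (2 * c) + r * (Ng * Pt) := by
      rw [sum_mul, sum_mul]
      refine (sum_le_sum (fun ρ _ => h2 ρ)).trans ?_
      rw [sum_add_distrib, ← sum_mul, ← sum_mul, sum_const, nsmul_eq_mul, card_univ]
      refine add_le_add ?_ (le_of_eq (by rw [hr]))
      exact mul_le_mul_of_nonneg_right (mul_le_mul_of_nonneg_right h3 hPt0.le) (by positivity)
    have h5 : (p + 1 / (2 * c)) * r * Pt = ((Ng * (p * r)) * Pt * (2 * c) + r * (Ng * Pt)) /
        (Ng * (2 * c)) := by
      field_simp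
    rw [h5, le_div_iff₀ (by positivity), ← mul_assoc]
    exact h4
  -- all positions
  have h2 : ∀ ρ π, ((univ.filter (fun K : Finset V => K.card = s ∧
      FewAbsent x y (C ρ) K)).card : ℝ) * n.factorial ≤
      (((univ.filter (fun τ : Equiv.Perm V => Pc τ ρ π)).card : ℝ) + h * n.factorial) *
        n.choose s := fun ρ π => one_circuit φ π (hC ρ) x y hV hx hy
  set N : ℝ := ((univ.filter (fun z : R × Finset V =>
    z.2.card = s ∧ FewAbsent x y (C z.1) z.2)).card : ℝ) with hN
  have h3 : N = ∑ ρ, ((univ.filter (fun K : Finset V => K.card = s ∧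
      FewAbsent x y (C ρ) K)).card : ℝ) := by
    rw [hN, ← Nat.cast_sum]
    congr 1
    simp_rw [card_filter]
    rw [Fintype.sum_prod_type]
  have hfact : (0 : ℝ) < n.factorial := by exact_mod_cast Nat.factorial_pos n
  have h4 : N * n.factorial * Pt ≤ ((p + 1 / (2 * c)) * r * Pt * n.factorial +
      h * n.factorial * r * Pt) * n.choose s := by
    have e1 : N * n.factorial * Pt = ∑ ρ, ∑ _π : Fin s → Fin q,
        ((univ.filter (fun K : Finset V => K.card = s ∧
          FewAbsent x y (C ρ) K)).card : ℝ) * n.factorial := by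
      rw [h3, sum_mul, sum_mul]
      refine sum_congr rfl fun ρ _ => ?_
      rw [sum_const, nsmul_eq_mul, card_univ, mul_comm]
    rw [e1]
    refine (sum_le_sum fun ρ _ => sum_le_sum fun π _ => h2 ρ π).trans ?_
    simp_rw [← sum_mul, sum_add_distrib]
    refine mul_le_mul_of_nonneg_right ?_ (Nat.cast_nonneg _)
    refine add_le_add ?_ (le_of_eq ?_)
    · have e2 : ∑ ρ, ∑ π, ((univ.filter (fun τ : Equiv.Perm V => Pc τ ρ π)).card : ℝ) =
          ∑ τ : Equiv.Perm V, ∑ ρ, ((univ.filter (fun π => Pc τ ρ π)).card : ℝ) := by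
        simp_rw [card_filter, Nat.cast_sum]
        rw [sum_comm]
        rw [sum_comm]
        rw [sum_congr rfl (fun ρ _ => sum_comm)]
        rw [sum_comm]
      rw [e2]
      refine (sum_le_sum fun τ _ => h1 τ).trans (le_of_eq ?_)
      rw [sum_const, nsmul_eq_mul, card_univ, Fintype.card_perm, ← hn]
      ring
    · simp_rw [sum_const, nsmul_eq_mul, card_univ]
      rw [← hr, ← hPt]
      ring
  have h5 : (N * (n.factorial * Pt)) ≤ ((p + 1 / (2 * c) + h) * (r * n.choose s)) *
      (n.factorial * Pt) := by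
    calc N * (n.factorial * Pt) = N * n.factorial * Pt := by ring
      _ ≤ _ := h4
      _ = _ := by ring
  exact le_of_mul_le_mul_right h5 (by positivity)

end Pool.Agent.W2helper57.FAE
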