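import Pool.Agent.W2helper57.FAE.Block

/-!
# A random position of the hidden vertex set
-/

set_option autoImplicit false

namespace Pool.Agent.W2helper57.FAE

open Finset

section

variable {V : Type} [Fintype V] [DecidableEq V]

/-- Symmetric families of permutations hit each vertex outside of `F` equally often. -/
lemma sym_count (F W0 : Finset V) (Q : Finset (Equiv.Perm V)) (m : ℕ)
    (hQ : ∀ τ ∈ Q, ∀ v v', v ∉ F → v' ∉ F → Equiv.swap v v' * τ ∈ Q)
    (hm : ∀ τ ∈ Q, (univ.filter (fun v => v ∉ F ∧ τ⁻¹ v ∈ W0)).card = m) (v : V) (hv : v ∉ F) :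
    (Q.filter (fun τ => τ⁻¹ v ∈ W0)).card * (Fintype.card V - F.card) = m * Q.card := by
  have h1 : ∀ v', v' ∉ F →
      (Q.filter (fun τ => τ⁻¹ v' ∈ W0)).card = (Q.filter (fun τ => τ⁻¹ v ∈ W0)).card := by
    intro v' hv'
    have key : ∀ a b : V, a ∉ F → b ∉ F →
        (Q.filter (fun τ => τ⁻¹ a ∈ W0)).card ≤ (Q.filter (fun τ => τ⁻¹ b ∈ W0)).card := by
      intro a b ha hb
      refine card_le_card_of_injOn (fun τ => Equiv.swap a b * τ) ?_ ?_
      · intro τ hτ
        rw [mem_coe, mem_filter] at hτ ⊢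
        refine ⟨hQ τ hτ.1 a b ha hb, ?_⟩
        rw [mul_inv_rev, Equiv.swap_inv, Equiv.Perm.mul_apply, Equiv.swap_apply_right]
        exact hτ.2
      · intro τ _ τ' _ h
        exact mul_left_cancel h
    exact le_antisymm (key v' v hv' hv) (key v v' hv hv')
  have h2 : ∑ v' ∈ Fᶜ, (Q.filter (fun τ => τ⁻¹ v' ∈ W0)).card = m * Q.card := by
    simp_rw [card_filter]
    rw [sum_comm]
    rw [show m * Q.card = ∑ _τ ∈ Q, m by rw [sum_const, smul_eq_mul, mul_comm]]
    refine sum_congr rfl fun τ hτ => ?_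
    rw [← hm τ hτ, ← card_filter]
    congr 1
    ext x
    simp
  rw [sum_congr rfl (fun v' hv' => h1 v' (mem_compl.mp hv')), sum_const, smul_eq_mul,
    card_compl] at h2
  rw [← h2, mul_comm]

omit [Fintype V] [DecidableEq V] in
lemma perm_inv (τ : Equiv.Perm V) (x : V) : τ⁻¹ (τ x) = x := τ.symm_apply_apply x

/-- the permutations that map `K0` to `K` -/
def Qs (K0 K : Finset V) : Finset (Equiv.Perm V) :=
  univ.filter (fun τ => ∀ v, v ∈ K ↔ τ⁻¹ v ∈ K0)

lemma mem_Qs {K0 K : Finset V} {τ : Equiv.Perm V} : τ ∈ Qs K0 K ↔ ∀ v, v ∈ K ↔ τ⁻¹ v ∈ K0 := by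
  unfold Qs
  rw [mem_filter]
  exact ⟨fun h => h.2, fun h => ⟨mem_univ _, h⟩⟩

omit [Fintype V] in
lemma swap_mem {K : Finset V} {v v' : V} (h : v ∉ K) (h' : v' ∉ K) (u : V) :
    Equiv.swap v v' u ∈ K ↔ u ∈ K := by
  by_cases h1 : u = v
  · subst h1
    rw [Equiv.swap_apply_left]
    exact ⟨fun h2 => absurd h2 h', fun h2 => absurd h2 h⟩
  · by_cases h2 : u = v'
    · subst h2
      rw [Equiv.swap_apply_right]
      exact ⟨fun h3 => absurd h3 h, fun h3 => absurd h3 h'⟩
    · rw [Equiv.swap_apply_of_ne_of_ne h1 h2]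

lemma Qs_swap {K0 K : Finset V} {τ : Equiv.Perm V} (hτ : τ ∈ Qs K0 K) {v v' : V} (h : v ∉ K)
    (h' : v' ∉ K) : Equiv.swap v v' * τ ∈ Qs K0 K := by
  rw [mem_Qs] at hτ ⊢
  intro u
  rw [mul_inv_rev, Equiv.swap_inv, Equiv.Perm.mul_apply, ← hτ, swap_mem h h']

lemma card_out {F0 F W0 : Finset V} (hF : F0 ⊆ W0) {τ : Equiv.Perm V}
    (hτ : ∀ v, v ∈ F ↔ τ⁻¹ v ∈ F0) :
    (univ.filter (fun v => v ∉ F ∧ τ⁻¹ v ∈ W0)).card = W0.card - F0.card := by
  rw [← card_sdiff_of_subset hF]
  refine card_bij (fun v _ => τ⁻¹ v) ?_ ?_ ?_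
  · intro v hv
    rw [mem_filter] at hv
    rw [mem_sdiff, ← hτ]
    exact ⟨hv.2.2, hv.2.1⟩
  · intro v _ v' _ h
    exact (τ⁻¹).injective h
  · intro x hx
    rw [mem_sdiff] at hx
    refine ⟨τ x, ?_, by simp⟩
    rw [mem_filter, hτ, perm_inv]
    exact ⟨mem_univ _, hx.2, hx.1⟩

lemma one_hit {K0 K W0 : Finset V} (hK : K.card = K0.card) (hKW : K0 ⊆ W0) {u : V} (hu : u ∉ K) :
    ((Qs K0 K).filter (fun τ => τ⁻¹ u ∈ W0)).card * Fintype.card V ≤
      W0.card * (Qs K0 K).card := by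
  have h1 := sym_count K W0 (Qs K0 K) (W0.card - K0.card)
    (fun τ hτ v v' h h' => Qs_swap hτ h h')
    (fun τ hτ => card_out hKW (mem_Qs.mp hτ)) u hu
  have h2 : K.card ≤ Fintype.card V := card_le_univ _
  have h3 := card_le_card hKW
  have h4 : ((Qs K0 K).filter (fun τ => τ⁻¹ u ∈ W0)).card ≤ (Qs K0 K).card :=
    card_le_card (filter_subset _ _)
  obtain ⟨a, ha⟩ := Nat.exists_eq_add_of_le h2
  obtain ⟨b, hb⟩ := Nat.exists_eq_add_of_le h3
  rw [ha, Nat.add_sub_cancel_left, hb, Nat.add_sub_cancel_left] at h1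
  rw [ha, hb, ← hK]
  nlinarith

lemma two_hit {K0 K W0 : Finset V} (hK : K.card = K0.card) (hKW : K0 ⊆ W0) {u v : V}
    (hu : u ∉ K) (hv : v ∉ K) (huv : u ≠ v) :
    ((Qs K0 K).filter (fun τ => τ⁻¹ u ∈ W0 ∧ τ⁻¹ v ∈ W0)).card * Fintype.card V ^ 2 ≤
      W0.card ^ 2 * (Qs K0 K).card := by
  have h0 := one_hit hK hKW hu
  have hkey : ∀ τ ∈ (Qs K0 K).filter (fun τ => τ⁻¹ u ∈ W0),
      (univ.filter (fun v => v ∉ insert u K ∧ τ⁻¹ v ∈ W0)).card = W0.card - K0.card - 1 := by
    intro τ hτ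
    rw [mem_filter, mem_Qs] at hτ
    have h1 := card_out (F0 := insert (τ⁻¹ u) K0) (F := insert u K) (W0 := W0)
      (insert_subset hτ.2 hKW) (τ := τ) (fun x => by
        rw [mem_insert, mem_insert, hτ.1 x]
        constructor
        · rintro (h | h)
          · exact Or.inl (by rw [h])
          · exact Or.inr h
        · rintro (h | h)
          · exact Or.inl ((τ⁻¹).injective h)
          · exact Or.inr h)
    rw [h1, card_insert_of_notMem (fun h => hu ((hτ.1 u).mpr h))]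
    omega
  have h1 := sym_count (insert u K) W0 ((Qs K0 K).filter (fun τ => τ⁻¹ u ∈ W0))
    (W0.card - K0.card - 1)
    (fun τ hτ x x' h h' => by
      rw [mem_filter] at hτ ⊢
      rw [mem_insert, not_or] at h h'
      refine ⟨Qs_swap hτ.1 h.2 h'.2, ?_⟩
      rw [mul_inv_rev, Equiv.swap_inv, Equiv.Perm.mul_apply,
        Equiv.swap_apply_of_ne_of_ne (Ne.symm h.1) (Ne.symm h'.1)]
      exact hτ.2) hkey v (by
      rw [mem_insert, not_or]
      exact ⟨huv.symm, hv⟩)
  rw [filter_filter, card_insert_of_notMem hu] at h1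
  have h2 : K.card + 1 ≤ Fintype.card V := by
    rw [← card_insert_of_notMem hu]
    exact card_le_univ _
  have h3 := card_le_card hKW
  have h4 : ((Qs K0 K).filter (fun τ => τ⁻¹ u ∈ W0 ∧ τ⁻¹ v ∈ W0)).card ≤
      ((Qs K0 K).filter (fun τ => τ⁻¹ u ∈ W0)).card := by
    apply card_le_card
    intro τ hτ
    rw [mem_filter] at hτ ⊢
    exact ⟨hτ.1, hτ.2.1⟩
  set N2 := ((Qs K0 K).filter (fun τ => τ⁻¹ u ∈ W0 ∧ τ⁻¹ v ∈ W0)).card with hN2
  set N1 := ((Qs K0 K).filter (fun τ => τ⁻¹ u ∈ W0)).card with hN1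
  have h5 : N2 * Fintype.card V ≤ W0.card * N1 := by
    obtain ⟨a, ha⟩ := Nat.exists_eq_add_of_le h2
    rw [ha, Nat.add_sub_cancel_left] at h1
    rcases Nat.lt_or_ge K0.card W0.card with h6 | h6
    · obtain ⟨b, hb⟩ := Nat.exists_eq_add_of_le (Nat.succ_le_of_lt h6)
      have h7 : W0.card - K0.card - 1 = b := by omega
      rw [h7] at h1
      rw [ha, hb, ← hK]
      have h8 : W0.card = K.card + 1 + b := by omega
      nlinarith
    · have h7 : W0 = K0 := (eq_of_subset_of_card_le hKW h6).symm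
      have h8 : N1 = 0 := by
        rw [hN1, card_eq_zero, filter_eq_empty_iff]
        intro τ hτ h
        rw [mem_Qs] at hτ
        rw [h7] at h
        exact hu ((hτ u).mpr h)
      have : N2 = 0 := by omega
      rw [this, h8]
      simp
  calc N2 * Fintype.card V ^ 2 = (N2 * Fintype.card V) * Fintype.card V := by ring
    _ ≤ (W0.card * N1) * Fintype.card V := Nat.mul_le_mul_right _ h5
    _ = W0.card * (N1 * Fintype.card V) := by ring
    _ ≤ W0.card * (W0.card * (Qs K0 K).card) := Nat.mul_le_mul_left _ h0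
    _ = _ := by ring

/-- all sets of the same size are equally likely -/
lemma Qs_card_eq {K0 K K' : Finset V} (h : K.card = K'.card) :
    (Qs K0 K).card = (Qs K0 K').card := by
  have key : ∀ A B : Finset V, A.card = B.card → (Qs K0 A).card ≤ (Qs K0 B).card := by
    intro A B hAB
    let e : {x // x ∈ A} ≃ {x // x ∈ B} := Finset.equivOfCardEq hAB
    refine card_le_card_of_injOn (fun τ => e.extendSubtype * τ) ?_ ?_
    · intro τ hτ
      rw [mem_coe, mem_Qs] at hτ
      rw [mem_coe, mem_Qs]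
      intro v
      rw [mul_inv_rev, Equiv.Perm.mul_apply, ← hτ]
      obtain ⟨x, rfl⟩ := (e.extendSubtype).surjective v
      rw [perm_inv]
      constructor
      · intro h1
        by_contra h2
        exact e.extendSubtype_not_mem x h2 h1
      · intro h1
        exact e.extendSubtype_mem x h1
    · intro τ _ τ' _ h1
      exact mul_left_cancel h1
  exact le_antisymm (key _ _ h) (key _ _ h.symm)

lemma Qs_total (K0 : Finset V) : ∑ K ∈ powersetCard K0.card univ, (Qs K0 K).card =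
    (Fintype.card V).factorial := by
  rw [← Fintype.card_perm, ← card_univ, ← card_biUnion]
  · congr 1
    ext τ
    rw [mem_biUnion]
    refine ⟨fun _ => mem_univ _, fun _ => ⟨K0.map τ.toEmbedding, ?_, ?_⟩⟩
    · rw [mem_powersetCard_univ, card_map]
    · rw [mem_Qs]
      intro v
      rw [mem_map]
      constructor
      · rintro ⟨x, hx, rfl⟩
        simpa using hx
      · intro h
        exact ⟨τ⁻¹ v, h, by simp⟩
  · intro K _ K' _ hne
    rw [Function.onFun, disjoint_left]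
    intro τ h1 h2
    rw [mem_Qs] at h1 h2
    apply hne
    ext v
    rw [h1, h2]

lemma Qs_card (K0 K : Finset V) (hK : K.card = K0.card) :
    (Qs K0 K).card * (Fintype.card V).choose K0.card = (Fintype.card V).factorial := by
  rw [← Qs_total K0, sum_congr rfl (fun K' hK' => Qs_card_eq (K := K') (K' := K) (by
    rw [mem_powersetCard_univ] at hK'
    rw [hK', hK])), sum_const, card_powersetCard, card_univ, smul_eq_mul, mul_comm]

end

section

variable {V W : Type} [Fintype V] [DecidableEq V] [Fintype W]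

/-- the hidden set moved by a permutation -/
def mv (φ : W ↪ V) (τ : Equiv.Perm V) : W ↪ V := φ.trans τ.toEmbedding

omit [Fintype V] [DecidableEq V] [Fintype W] in
lemma mv_apply (φ : W ↪ V) (τ : Equiv.Perm V) (a : W) : mv φ τ a = τ (φ a) := rfl

open Classical in
/-- few permutations put a pair of the certificate in the hidden set -/
lemma hits (φ : W ↪ V) (K0 K : Finset V) (hK : K.card = K0.card)
    (hKW : K0 ⊆ univ.map φ) (S : Finset (Sym2 V)) (a b : ℝ) (hV : 0 < Fintype.card V)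
    (ha : ((S.filter (fun e => ∃ v ∈ e, v ∈ K)).card : ℝ) ≤ a) (hb : (S.card : ℝ) ≤ b) :
    (((Qs K0 K).filter (fun τ => ∃ e ∈ S, lone K e = false ∧ off (mv φ τ) e = false)).card : ℝ) ≤
      (a * (Fintype.card W / Fintype.card V) + b * (Fintype.card W / Fintype.card V) ^ 2) *
        (Qs K0 K).card := by
  set n : ℝ := (Fintype.card V : ℝ) with hn
  set w : ℝ := (Fintype.card W : ℝ) with hw
  have hn0 : 0 < n := by rw [hn]; exact_mod_cast hV
  set T : ℝ := ((Qs K0 K).card : ℝ) with hT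
  have hW0 : (univ.map φ).card = Fintype.card W := by rw [card_map, card_univ]
  set H : Sym2 V → Finset (Equiv.Perm V) := fun e =>
    (Qs K0 K).filter (fun τ => lone K e = false ∧ off (mv φ τ) e = false) with hH
  -- members of the hidden pair are in the moved set
  have hoff : ∀ τ e, off (mv φ τ) e = false → ∀ v ∈ e, τ⁻¹ v ∈ univ.map φ := by
    intro τ e he v hv
    unfold off at he
    rw [decide_eq_false_iff_not, not_not] at he
    obtain ⟨x, y, -, rfl⟩ := he
    rw [Sym2.mem_iff] at hv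
    rw [mem_map]
    rcases hv with rfl | rfl
    · exact ⟨x, mem_univ _, by rw [mv_apply, perm_inv]⟩
    · exact ⟨y, mem_univ _, by rw [mv_apply, perm_inv]⟩
  have hdiag : ∀ τ e, off (mv φ τ) e = false → ¬ e.IsDiag := by
    intro τ e he
    unfold off at he
    rw [decide_eq_false_iff_not, not_not] at he
    obtain ⟨x, y, hxy, rfl⟩ := he
    rw [Sym2.mk_isDiag_iff]
    intro h
    exact hxy ((mv φ τ).injective h)
  have h1 : ∀ e, ((H e).card : ℝ) ≤ w / n * T := by
    intro e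
    by_cases hne : (H e) = ∅
    · rw [hne, card_empty, Nat.cast_zero]
      positivity
    · obtain ⟨τ, hτ⟩ := nonempty_iff_ne_empty.mpr hne
      rw [hH, mem_filter] at hτ
      obtain ⟨-, hl, ho⟩ := hτ
      have hd := hdiag τ e ho
      unfold lone at hl
      rw [decide_eq_false_iff_not] at hl
      push Not at hl
      obtain ⟨v, hve, hvK⟩ := hl hd
      have h2 : H e ⊆ (Qs K0 K).filter (fun τ => τ⁻¹ v ∈ univ.map φ) := by
        intro τ' hτ'
        rw [hH, mem_filter] at hτ'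
        rw [mem_filter]
        exact ⟨hτ'.1, hoff τ' e hτ'.2.2 v hve⟩
      have h3 := one_hit hK hKW hvK
      rw [hW0] at h3
      have h4 : (((Qs K0 K).filter (fun τ => τ⁻¹ v ∈ univ.map φ)).card : ℝ) * n ≤ w * T := by
        rw [hn, hw, hT]
        exact_mod_cast h3
      have h5 : ((H e).card : ℝ) ≤ ((Qs K0 K).filter (fun τ => τ⁻¹ v ∈ univ.map φ)).card := by
        exact_mod_cast card_le_card h2
      rw [div_mul_eq_mul_div, le_div_iff₀ hn0]
      exact (mul_le_mul_of_nonneg_right h5 hn0.le).trans h4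
  have h2 : ∀ e, (¬ ∃ v ∈ e, v ∈ K) → ((H e).card : ℝ) ≤ (w / n) ^ 2 * T := by
    intro e he
    by_cases hne : (H e) = ∅
    · rw [hne, card_empty, Nat.cast_zero]
      positivity
    · obtain ⟨τ, hτ⟩ := nonempty_iff_ne_empty.mpr hne
      rw [hH, mem_filter] at hτ
      obtain ⟨-, hl, ho⟩ := hτ
      have hd := hdiag τ e ho
      clear hl ho
      induction e using Sym2.ind with
      | _ u v =>
        have hu : u ∉ K := fun h => he ⟨u, Sym2.mem_mk_left u v, h⟩
        have hv : v ∉ K := fun h => he ⟨v, Sym2.mem_mk_right u v, h⟩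
        have huv : u ≠ v := by
          rw [Sym2.mk_isDiag_iff] at hd
          exact hd
        have h2 : H s(u, v) ⊆ (Qs K0 K).filter
            (fun τ => τ⁻¹ u ∈ univ.map φ ∧ τ⁻¹ v ∈ univ.map φ) := by
          intro τ' hτ'
          rw [hH, mem_filter] at hτ'
          rw [mem_filter]
          exact ⟨hτ'.1, hoff τ' _ hτ'.2.2 u (Sym2.mem_mk_left u v),
            hoff τ' _ hτ'.2.2 v (Sym2.mem_mk_right u v)⟩
        have h3 := two_hit hK hKW hu hv huv
        rw [hW0] at h3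
        have h4 : (((Qs K0 K).filter
            (fun τ => τ⁻¹ u ∈ univ.map φ ∧ τ⁻¹ v ∈ univ.map φ)).card : ℝ) * n ^ 2 ≤
            w ^ 2 * T := by
          rw [hn, hw, hT]
          exact_mod_cast h3
        have h5 : ((H s(u, v)).card : ℝ) ≤ ((Qs K0 K).filter
            (fun τ => τ⁻¹ u ∈ univ.map φ ∧ τ⁻¹ v ∈ univ.map φ)).card := by
          exact_mod_cast card_le_card h2
        rw [div_pow, div_mul_eq_mul_div, le_div_iff₀ (by positivity)]
        exact (mul_le_mul_of_nonneg_right h5 (by positivity)).trans h4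
  have h3 : (Qs K0 K).filter (fun τ => ∃ e ∈ S, lone K e = false ∧ off (mv φ τ) e = false) ⊆
      (S.filter (fun e => ∃ v ∈ e, v ∈ K)).biUnion H ∪
      (S.filter (fun e => ¬ ∃ v ∈ e, v ∈ K)).biUnion H := by
    intro τ hτ
    rw [mem_filter] at hτ
    obtain ⟨hτ1, e, heS, he⟩ := hτ
    rw [mem_union, mem_biUnion, mem_biUnion]
    by_cases h : ∃ v ∈ e, v ∈ K
    · exact Or.inl ⟨e, mem_filter.mpr ⟨heS, h⟩, mem_filter.mpr ⟨hτ1, he⟩⟩
    · exact Or.inr ⟨e, mem_filter.mpr ⟨heS, h⟩, mem_filter.mpr ⟨hτ1, he⟩⟩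
  have h4 := (card_le_card h3).trans ((card_union_le _ _).trans
    (Nat.add_le_add card_biUnion_le card_biUnion_le))
  have h5 : (((Qs K0 K).filter (fun τ => ∃ e ∈ S, lone K e = false ∧
      off (mv φ τ) e = false)).card : ℝ) ≤
      ∑ e ∈ S.filter (fun e => ∃ v ∈ e, v ∈ K), ((H e).card : ℝ) +
      ∑ e ∈ S.filter (fun e => ¬ ∃ v ∈ e, v ∈ K), ((H e).card : ℝ) := by
    exact_mod_cast h4
  refine h5.trans ?_
  have h6 : ∑ e ∈ S.filter (fun e => ∃ v ∈ e, v ∈ K), ((H e).card : ℝ) ≤ a * (w / n * T) := by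
    refine (sum_le_sum (fun e _ => h1 e)).trans ?_
    rw [sum_const, nsmul_eq_mul]
    exact mul_le_mul_of_nonneg_right ha (by positivity)
  have h7 : ∑ e ∈ S.filter (fun e => ¬ ∃ v ∈ e, v ∈ K), ((H e).card : ℝ) ≤
      b * ((w / n) ^ 2 * T) := by
    refine (sum_le_sum (fun e he => h2 e (mem_filter.mp he).2)).trans ?_
    rw [sum_const, nsmul_eq_mul]
    refine mul_le_mul_of_nonneg_right ?_ (by positivity)
    refine le_trans ?_ hb
    exact_mod_cast card_le_card (filter_subset _ _)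
  calc _ ≤ a * (w / n * T) + b * ((w / n) ^ 2 * T) := add_le_add h6 h7
    _ = _ := by ring

end

end Pool.Agent.W2helper57.FAE
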