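import Pool.Agent.W2lead.PMDefs

/-!
# Accepting an isolated clique by means of few absent edges: definitions

The circuits are those of `Pool.Agent.W2lead.PM.Circuit`: AND and OR gates of fan-in two, negations
only at the inputs, and a record of the negated inputs that may be used.
-/

set_option autoImplicit false

namespace Pool.Agent.W2helper57.FAE

open Pool.Agent.W2lead.PM

open Classical in
/-- the bits of the graph whose edges are all the pairs of different vertices of `K` (the vertices
outside `K` are isolated) -/
noncomputable def lone {V : Type} (K : Finset V) : Sym2 V → Bool :=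
  fun e => decide (¬ e.IsDiag ∧ ∀ v ∈ e, v ∈ K)

open Classical in
/-- The input `x` is accepted by means of the negated inputs in `S`. -/
def AcceptsBy {V : Type} (f : (Sym2 V → Bool) → (Sym2 V → Bool) → Bool) (S : Finset (Sym2 V))
    (x : Sym2 V → Bool) : Prop :=
  f (fun e => decide (e ∈ S)) x = true

open Classical in
/-- The graph with the single clique `K` and no other edges is accepted by means of at most `b`
negated inputs, at most `a` of them at pairs which meet `K`. -/
def FewAbsent {V : Type} (a b : ℝ) (f : (Sym2 V → Bool) → (Sym2 V → Bool) → Bool)
    (K : Finset V) : Prop :=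
  ∃ S : Finset (Sym2 V), ((S.filter (fun e => ∃ v ∈ e, v ∈ K)).card : ℝ) ≤ a ∧
    (S.card : ℝ) ≤ b ∧ AcceptsBy f S (lone K)

end Pool.Agent.W2helper57.FAE
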