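import Pool.Agent.W2helper57.FAE.Core
import Pool.Agent.H559R9.Dist

/-!
# The lower bound
-/

set_option autoImplicit false

namespace Pool.Agent.W2helper57.FAE

open Finset Filter Pool.Agent.W2lead.PM Pool.Agent.H559R9

lemma hasSize_mono {I : Type} {a b : ℕ} (hab : a ≤ b) {f : (I → Bool) → (I → Bool) → Bool}
    (h : HasSize a f) : HasSize b f := by
  obtain ⟨s', h1, h2⟩ := h
  exact ⟨s', h1.trans hab, h2⟩

lemma ev_rpow {γ : ℝ} (hγ : 0 < γ) (M : ℝ) : ∀ᶠ n : ℕ in atTop, M ≤ (n : ℝ) ^ γ :=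
  ((tendsto_rpow_atTop hγ).comp tendsto_natCast_atTop_atTop).eventually (eventually_ge_atTop M)

lemma num_fin {s z c : ℝ} (hs : 0 ≤ s) (hz : 3 * (s + 1) ^ 2 ≤ z) (hc : z ^ 2 ≤ c) {a b : ℝ}
    (ha : a ≤ s / z ^ 4) (hb : b ≤ (s / z ^ 4) ^ 2) : 1 / (2 * c) + (a + b) ≤ 1 / z := by
  have hz3 : 3 ≤ z := by nlinarith
  have hz0 : 0 < z := by linarith
  have hc0 : 0 < c := lt_of_lt_of_le (by positivity) hc
  have t1 : 1 / (2 * c) ≤ 1 / z / 3 := by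
    rw [div_div, div_le_div_iff₀ (by positivity) (by positivity)]
    nlinarith
  have hsz : s ≤ z := by nlinarith
  have t2 : s / z ^ 4 ≤ 1 / z / 3 := by
    have e1 : s / z ^ 4 ≤ z / z ^ 4 := by gcongr
    have e2 : z / z ^ 4 = 1 / z * (1 / z ^ 2) := by
      field_simp
    have e3 : 1 / z ^ 2 ≤ 1 / 3 := by
      apply one_div_le_one_div_of_le (by norm_num)
      nlinarith
    calc s / z ^ 4 ≤ 1 / z * (1 / z ^ 2) := e1.trans e2.le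
      _ ≤ 1 / z * (1 / 3) := mul_le_mul_of_nonneg_left e3 (by positivity)
      _ = _ := by ring
  have t3 : (s / z ^ 4) ^ 2 ≤ 1 / z / 3 := by
    have e1 : 0 ≤ s / z ^ 4 := by positivity
    have e2 : s / z ^ 4 ≤ 1 := t2.trans (by
      rw [div_div, div_le_one (by positivity)]
      linarith)
    calc (s / z ^ 4) ^ 2 = s / z ^ 4 * (s / z ^ 4) := by ring
      _ ≤ s / z ^ 4 * 1 := mul_le_mul_of_nonneg_left e2 e1
      _ ≤ _ := by rw [mul_one]; exact t2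
  have e : 1 / z = 1 / z / 3 + 1 / z / 3 + 1 / z / 3 := by ring
  linarith

open Classical in
theorem lower {k : ℕ} (hk : 3 ≤ k) (s : ℕ) {ε θ : ℝ} (hθ : 0 < θ) (h : θ < ε) (hε : ε ≤ 1) :
    ∃ α : ℝ, 0 < α ∧ ∀ᶠ n : ℕ in atTop, ∀ (R : Type) [Fintype R]
      (C : R → (Sym2 (Fin n) → Bool) → (Sym2 (Fin n) → Bool) → Bool),
      (∀ ρ, ∃ m : ℕ, (m : ℝ) < (n : ℝ) ^ (θ * k) ∧ HasSize m (C ρ)) → ∀ p : ℝ,
      (∀ x, (graph x).CliqueFree k →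
        ((univ.filter (fun ρ => Accepts (C ρ) x)).card : ℝ) ≤ p * Fintype.card R) →
      ((univ.filter (fun z : R × Finset (Fin n) => z.2.card = s ∧
        FewAbsent ((n : ℝ) ^ (1 - ε)) ((n : ℝ) ^ (2 - 2 * ε)) (C z.1) z.2)).card : ℝ) ≤
        (p + (n : ℝ) ^ (-α)) * (Fintype.card R * n.choose s) := by
  obtain ⟨κ, rfl⟩ : ∃ κ, k = κ + 1 := ⟨k - 1, by omega⟩
  have hκ : 2 ≤ κ := by omega
  obtain ⟨γ, hγ⟩ : ∃ γ, γ = (ε - θ) / 2 := ⟨_, rfl⟩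
  have hγ0 : 0 < γ := by rw [hγ]; linarith
  obtain ⟨θ', hθ'⟩ : ∃ θ', θ' = ε - γ := ⟨_, rfl⟩
  have hθθ : θ' = θ + γ := by rw [hθ', hγ]; ring
  have hk3 : (3 : ℝ) ≤ ((κ + 1 : ℕ) : ℝ) := by exact_mod_cast hk
  refine ⟨γ / 4, by positivity, ?_⟩
  have hpar := params4 hκ (α := γ / 2) (θ := θ) (θ' := θ') (by positivity) hθ
    (by rw [hθθ]; linarith) (by rw [hθθ]; nlinarith)
  filter_upwards [hpar, eventually_ge_atTop 1, ev_rpow (γ := γ / 4) (by positivity)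
    (3 * ((s : ℝ) + 1) ^ 2), ev_rpow (γ := 1 - θ') (by linarith) ((s : ℝ))] with
    n h1 hn1 hz hsn R _ C hC p hno
  obtain ⟨hb2, hc1, hq, hS⟩ := h1
  have hn0 : (0 : ℝ) < n := by exact_mod_cast hn1
  have hn1' : (1 : ℝ) ≤ n := by exact_mod_cast hn1
  obtain ⟨hp1, hp2⟩ := two_pow_floor hn1 (by rw [hθθ]; linarith : (0 : ℝ) ≤ θ')
  obtain ⟨b, hb⟩ : ∃ b, b = ⌊θ' * Real.logb 2 (n : ℝ)⌋₊ := ⟨_, rfl⟩
  rw [← hb] at hb2 hq hS hp1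
  obtain ⟨c, hc⟩ : ∃ c, c = ⌈(n : ℝ) ^ (γ / 2)⌉₊ := ⟨_, rfl⟩
  rw [← hc] at hc1 hq hS
  obtain ⟨z, hzd⟩ : ∃ z, z = (n : ℝ) ^ (γ / 4) := ⟨_, rfl⟩
  rw [← hzd] at hz
  have hs0 : (0 : ℝ) ≤ s := Nat.cast_nonneg _
  have hz0 : 0 < z := by
    rw [hzd]
    positivity
  have hz2 : z ^ 2 = (n : ℝ) ^ (γ / 2) := by
    rw [hzd, ← Real.rpow_natCast, ← Real.rpow_mul hn0.le]
    congr 1
    push_cast
    ring
  have hz4 : z ^ 4 = (n : ℝ) ^ γ := by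
    rw [hzd, ← Real.rpow_natCast, ← Real.rpow_mul hn0.le]
    congr 1
    push_cast
    ring
  have hcz : z ^ 2 ≤ c := by
    rw [hz2, hc]
    exact Nat.le_ceil _
  set Z : ℝ := (n : ℝ) ^ (θ * (κ + 1 : ℕ)) with hZ
  have hZ0 : 0 < Z := by positivity
  have hceil : 0 < ⌈Z⌉₊ := Nat.ceil_pos.2 hZ0
  have hSlt : ((⌈Z⌉₊ - 1 : ℕ) : ℝ) < Z := Nat.lt_ceil.1 (by omega)
  have hwn : s * 2 ^ b ≤ Fintype.card (Fin n) := by
    rw [Fintype.card_fin]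
    have e1 : (s : ℝ) * 2 ^ b ≤ n := by
      calc (s : ℝ) * 2 ^ b ≤ (n : ℝ) ^ (1 - θ') * (n : ℝ) ^ θ' := by gcongr
        _ = n := by
          rw [← Real.rpow_add hn0]
          norm_num
    exact_mod_cast e1
  have key := core (V := Fin n) (κ := κ) (s := s) (b := b) (c := c) (S := ⌈Z⌉₊ - 1) hκ hb2 hc1 hq
    (hS _ hSlt) (by rw [Fintype.card_fin]; omega) hwn R C (fun ρ => by
      obtain ⟨m, hm, hsz⟩ := hC ρ
      refine hasSize_mono ?_ hsz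
      have : m < ⌈Z⌉₊ := Nat.lt_ceil.2 hm
      omega) p hno ((n : ℝ) ^ (1 - ε)) ((n : ℝ) ^ (2 - 2 * ε)) (by positivity) (by positivity)
  rw [Fintype.card_fin] at key
  refine (le_of_eq ?_).trans (key.trans ?_)
  · congr!
  refine mul_le_mul_of_nonneg_right ?_ (by positivity)
  -- the numbers
  obtain ⟨u, hu⟩ : ∃ u : ℝ, u = ((s * 2 ^ b : ℕ) : ℝ) / n := ⟨_, rfl⟩
  have hu0 : 0 ≤ u := by rw [hu]; positivity
  have hxu : (n : ℝ) ^ (1 - ε) * u ≤ s / z ^ 4 := by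
    rw [hu, hz4]
    push_cast
    rw [le_div_iff₀ (by positivity)]
    have e1 : (n : ℝ) ^ (1 - ε) * (s * 2 ^ b / n) * (n : ℝ) ^ γ ≤
        (n : ℝ) ^ (1 - ε) * (s * (n : ℝ) ^ θ' / n) * (n : ℝ) ^ γ := by gcongr
    refine e1.trans (le_of_eq ?_)
    have e2 : (n : ℝ) ^ (1 - ε) * (n : ℝ) ^ θ' * (n : ℝ) ^ γ = n := by
      rw [← Real.rpow_add hn0, ← Real.rpow_add hn0, hθ']
      have : 1 - ε + (ε - γ) + γ = 1 := by ring
      rw [this, Real.rpow_one]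
    calc (n : ℝ) ^ (1 - ε) * (s * (n : ℝ) ^ θ' / n) * (n : ℝ) ^ γ
        = s * ((n : ℝ) ^ (1 - ε) * (n : ℝ) ^ θ' * (n : ℝ) ^ γ) / n := by ring
      _ = s := by rw [e2]; field_simp
  have hyu : (n : ℝ) ^ (2 - 2 * ε) * u ^ 2 ≤ (s / z ^ 4) ^ 2 := by
    have e1 : (n : ℝ) ^ (2 - 2 * ε) = ((n : ℝ) ^ (1 - ε)) ^ 2 := by
      rw [← Real.rpow_natCast, ← Real.rpow_mul hn0.le]
      congr 1
      push_cast
      ring
    rw [e1, ← mul_pow]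
    exact pow_le_pow_left₀ (by positivity) hxu 2
  have hfin : (n : ℝ) ^ (-(γ / 4)) = 1 / z := by
    rw [Real.rpow_neg hn0.le, hzd, one_div]
  rw [hfin, ← hu]
  have hfinal := num_fin hs0 hz hcz hxu hyu
  linarith

end Pool.Agent.W2helper57.FAE
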